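import Pool.Agent.Helper60.Costas.Converse

/-!
MP_c75f22_co, Q1. The literal answer to Q1 is negative: at `n = 7` there are four Costas
permutations that are produced both by `G_2` (with `q = 9`) and by `RG_1` (with `q = 8`,
`t₁ = t₂ = 4`). These four coincidences are the only ones for all `n > 5`.

The definitions (`IsCostas`, `IsPrimitive`, `w1exp`, `IsG2`, `Method`, `Produces`) are in
`Pool.Agent.Helper60.Costas.Defs`.
-/

namespace Pool.Agent.Results.MP_c75f22_co.Classification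

open Pool.Agent.Helper60.Costas

/-- The statement asked about in Q1: for every `n > 5`, no Costas permutation of order `n` is
produced by two different methods. -/
def Q1 : Prop :=
  ∀ n : ℕ, 5 < n → ∀ (f : ℕ → ℕ) (M M' : Method), M ≠ M' →
    ¬ (IsCostas n f ∧ Produces M n f ∧ Produces M' n f)

/-- Q1 fails, and here is the complete list of coincidences for all `n > 5`. -/
theorem result :
    ¬ Q1 ∧
    ∀ n : ℕ, 5 < n → ∀ (f : ℕ → ℕ) (M M' : Method), M ≠ M' →
      ((IsCostas n f ∧ Produces M n f ∧ Produces M' n f) ↔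
        (n = 7 ∧ ((M = Method.G2 ∧ M' = Method.RG1) ∨ (M = Method.RG1 ∧ M' = Method.G2)) ∧
          [f 1, f 2, f 3, f 4, f 5, f 6, f 7] ∈
            [[2, 1, 6, 4, 7, 3, 5], [3, 5, 1, 4, 2, 7, 6],
             [5, 3, 7, 4, 6, 1, 2], [6, 7, 2, 4, 1, 5, 3]])) := by
  have hmain : ∀ n : ℕ, 5 < n → ∀ (f : ℕ → ℕ) (M M' : Method), M ≠ M' →
      ((IsCostas n f ∧ Produces M n f ∧ Produces M' n f) ↔
        (n = 7 ∧ ((M = Method.G2 ∧ M' = Method.RG1) ∨ (M = Method.RG1 ∧ M' = Method.G2)) ∧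
          [f 1, f 2, f 3, f 4, f 5, f 6, f 7] ∈
            [[2, 1, 6, 4, 7, 3, 5], [3, 5, 1, 4, 2, 7, 6],
             [5, 3, 7, 4, 6, 1, 2], [6, 7, 2, 4, 1, 5, 3]])) := by
    intro n hn f M M' hne
    exact classification hn hne
  refine ⟨?_, hmain⟩
  intro hQ
  let f : ℕ → ℕ := fun i => [2, 1, 6, 4, 7, 3, 5].getD (i - 1) 0
  have h := (hmain 7 (by norm_num) f Method.G2 Method.RG1 (by decide)).2
    ⟨rfl, Or.inl ⟨rfl, rfl⟩, by decide⟩
  exact hQ 7 (by norm_num) f Method.G2 Method.RG1 (by decide) h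

end Pool.Agent.Results.MP_c75f22_co.Classification
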